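import Mathlib
import Pool.Agent.H621.Avg.Many
import Pool.Agent.H621.Avg.Upper

set_option autoImplicit false

/-!
# More than any power of `log y` of the `k ≤ y` have at least `y^(1-ε)` primitive cycles

Lagarias (1990) shows that for every `ε > 0` there are infinitely many `k` for which the `3x+k` map has at
least `k^(1-ε)` primitive cycles of period at most `log₂ k`, and he conjectures that there is at least one
primitive cycle for every `k`. We show that among the `k` between `y^(1-ε)` and `y`, for every large `y`,
more than any power of `log y` have at least `y^(1-ε)` primitive cycles with at most `log₂ y` elements.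
On the other hand at most `exp (ε P)` of all `k` have a primitive cycle with at most `P` elements. So the
number of the `k ≤ 2^P` with a primitive cycle with at most `P` elements lies between `exp ((log P)^A)` and
`exp (ε P)`, for every `A` and `ε`, if `P` is large.

Proof. The words `w` of length `2 n` with `n` letters `1` belong to the periodic points `c w / D` of the
`3x+1` map on the rational numbers, `D = 4^n - 3^n`, hence to primitive cycles of the `3x+d` map,
`d = d(w) = D / gcd (c w, D)`. We take for `n` (nearly `(log₂ y)/2`) a multiple of `Q^s`, `Q` a product of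
`r` large primes. Then `D` is divisible by a set `L` of at least `(s+1)^r - O(1)` primes (a primitive prime
divisor of `4^e - 3^e` for each large divisor `e` of `Q^s`), whose product is at most
`4^(Q^s) ≤ 4^(n^(1/3) + ...)`, and `c w` is divisible by each product `g` of these primes with probability
at least `1/(2 g)`: this is proved with exponential sums modulo `g` (see
`MP_7f88e4_nt.AverageNumberOfCycles`). So the product of the primes of `L` which divide `c w` is at least
`(9/5)^(#L) / 2` on average. A denominator `d` has at most `2 n d` words, and so contributes at most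
`2 n D` to the sum of these products; the denominators with less than `y^(1-ε)` primitive cycles, or
below `y^(1-ε)`, contribute together very little by the divisor bound. So there are more than
`(9/5)^(#L) / (16 n^2)` other denominators. The upper bound: `k` divides a number `2^p - 3^o`, `o ≤ p ≤ P`.
-/

namespace Pool.Agent.Results.MP_9c4f7e_nt.ManyPrimitiveCycles

/-- the `3x+k` map -/
def T (k x : ℤ) : ℤ := if x % 2 = 0 then x / 2 else (3 * x + k) / 2

/-- `Z` is a cycle of the `3x+k` map: `Z = {x, T x, ..., T^(p-1) x}` with `p ≥ 1` and `T^p x = x` -/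
def IsCycle (k : ℤ) (Z : Finset ℤ) : Prop :=
  ∃ (x : ℤ) (p : ℕ), 1 ≤ p ∧ (T k)^[p] x = x ∧ Z = (Finset.range p).image fun i => (T k)^[i] x

/-- the primitive cycles of the `3x+k` map with at most `P` elements: all elements are prime to `k` -/
def primitiveUpTo (k : ℤ) (P : ℕ) : Set (Finset ℤ) :=
  {Z | IsCycle k Z ∧ Z.card ≤ P ∧ ∀ x ∈ Z, IsCoprime x k}

/-- (0) For odd `k` the sets `primitiveUpTo k P` are finite.
(1) For every `A` and `0 < ε < 1` and all large `y` there are at least `exp ((log log y)^A)` natural
numbers `k ≤ y`, `k ≥ y^(1-ε)`, `k ≡ 1, 5` modulo `6`, for which the `3x+k` map has at least `y^(1-ε)`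
primitive cycles with at most `log₂ y` elements.
(2) For every `ε > 0` and all large `P` at most `exp (ε P)` natural numbers `k ≡ 1, 5` modulo `6` (of any
size) have a primitive cycle with at most `P` elements. -/
theorem result :
    (∀ k : ℤ, k % 2 = 1 → ∀ P : ℕ, (primitiveUpTo k P).Finite) ∧
    (∀ A ε : ℝ, 0 < ε → ε < 1 → ∃ y₀ : ℕ, ∀ y : ℕ, y₀ ≤ y →
      Real.exp (Real.log (Real.log y) ^ A) ≤
        (Set.ncard {k : ℕ | k ≤ y ∧ (k % 6 = 1 ∨ k % 6 = 5) ∧ (y : ℝ) ^ (1 - ε) ≤ k ∧
          (y : ℝ) ^ (1 - ε) ≤ ((primitiveUpTo (k : ℤ) (Nat.log 2 y)).ncard : ℝ)} : ℝ)) ∧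
    (∀ ε : ℝ, 0 < ε → ∃ P₀ : ℕ, ∀ P : ℕ, P₀ ≤ P →
      {k : ℕ | (k % 6 = 1 ∨ k % 6 = 5) ∧ (primitiveUpTo (k : ℤ) P).Nonempty}.Finite ∧
      (Set.ncard {k : ℕ | (k % 6 = 1 ∨ k % 6 = 5) ∧ (primitiveUpTo (k : ℤ) P).Nonempty} : ℝ) ≤
        Real.exp (ε * P)) := by
  have hT : T = Pool.Agent.H621.Osc.T := by funext k x; rfl
  have hP : primitiveUpTo = Pool.Agent.H621.Avg.primCycles := by
    funext k P
    unfold primitiveUpTo Pool.Agent.H621.Avg.primCycles IsCycle Pool.Agent.H621.Osc.IsCycle
    rw [hT]
  rw [hP]
  exact ⟨fun k hk P => Pool.Agent.H621.Avg.primCycles_finite k hk P,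
    fun A ε h0 h1 => Pool.Agent.H621.Avg.many_log A ε h0 h1,
    fun ε h0 => Pool.Agent.H621.Avg.few_card ε h0⟩

end Pool.Agent.Results.MP_9c4f7e_nt.ManyPrimitiveCycles
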