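import Mathlib
import Pool.Agent.H621.Avg.Primitive

set_option autoImplicit false

/-!
# In arbitrarily large dyadic ranges the `3x+k` maps have on average many primitive cycles

For every `A` and every `ε > 0` there are arbitrarily large `y` such that the `3x+k` maps with
`y < k ≤ 2 y`, `k` prime to `6`, have on average at least `exp ((log log y)^A)`, so more than any power of
`log y`, primitive cycles with at most `exp ((log y)^ε)` elements.

Proof. The words `w` of length `2 n` with `n` letters `1` belong to the periodic points `c w / D` of the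
`3x+1` map on the rational numbers, `D = 4^n - 3^n`, hence to primitive cycles of the `3x+d` map,
`d = d(w) = D / gcd (c w, D)`. For special `n` (a power of a product of large primes) the sum of the
`1/d(w)` over all the words is at least `exp ((log n)^(A+1))`: see
`MP_7f88e4_nt.AverageNumberOfCycles` and `Pool/Agent/H621/Avg`; the numerators are equidistributed modulo
the products of many primes dividing `D`. At most `2 n d` words have `d(w) = d` (each of these cycles has
an element between `1` and `d`), so the words with `d(w) > y₀` carry most of this sum, and one of the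
`2 n` dyadic ranges `2^j y₀ < d(w) ≤ 2^(j+1) y₀` has its share of it. The words of one cycle with the
same length are at most `2 n`.
-/

namespace Pool.Agent.Results.MP_9c4f7e_nt.MeanOfPrimitiveCycles

/-- the `3x+k` map -/
def T (k x : ℤ) : ℤ := if x % 2 = 0 then x / 2 else (3 * x + k) / 2

/-- `Z` is a cycle of the `3x+k` map: `Z = {x, T x, ..., T^(p-1) x}` with `p ≥ 1` and `T^p x = x` -/
def IsCycle (k : ℤ) (Z : Finset ℤ) : Prop :=
  ∃ (x : ℤ) (p : ℕ), 1 ≤ p ∧ (T k)^[p] x = x ∧ Z = (Finset.range p).image fun i => (T k)^[i] x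

/-- the primitive cycles of the `3x+k` map with at most `P` elements: all elements are prime to `k` -/
def primitiveUpTo (k : ℤ) (P : ℕ) : Set (Finset ℤ) :=
  {Z | IsCycle k Z ∧ Z.card ≤ P ∧ ∀ x ∈ Z, IsCoprime x k}

/-- (0) For odd `k` the sets `primitiveUpTo k P` are finite.
(1) For every `A` and every `ε > 0` there are arbitrarily large `y` such that the numbers of the
primitive cycles with at most `exp ((log y)^ε)` elements of the `3x+k` maps, `y < k ≤ 2 y`,
`k ≡ 1, 5` modulo `6`, have a sum of at least `y exp ((log log y)^A)`. -/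
theorem result :
    (∀ k : ℤ, k % 2 = 1 → ∀ P : ℕ, (primitiveUpTo k P).Finite) ∧
    (∀ A ε : ℝ, 0 < ε → ∀ a : ℕ, ∃ y : ℕ, a ≤ y ∧
      (y : ℝ) * Real.exp (Real.log (Real.log y) ^ A) ≤
        ∑ k ∈ (Finset.Ioc y (2 * y)).filter (fun k => k % 6 = 1 ∨ k % 6 = 5),
          ((primitiveUpTo (k : ℤ) ⌊Real.exp (Real.log y ^ ε)⌋₊).ncard : ℝ)) := by
  have hT : T = Pool.Agent.H621.Osc.T := by funext k x; rfl
  have hP : primitiveUpTo = Pool.Agent.H621.Avg.primCycles := by
    funext k P
    unfold primitiveUpTo Pool.Agent.H621.Avg.primCycles IsCycle Pool.Agent.H621.Osc.IsCycle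
    rw [hT]
  rw [hP]
  refine ⟨fun k hk P => Pool.Agent.H621.Avg.primCycles_finite k hk P, fun A ε hε a => ?_⟩
  obtain ⟨y, hy, h⟩ := Filter.frequently_atTop.1 (Pool.Agent.H621.Avg.prim_main A ε hε) a
  exact ⟨y, hy, h⟩

end Pool.Agent.Results.MP_9c4f7e_nt.MeanOfPrimitiveCycles
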